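import Mathlib
import Pool.Agent.H89.TameA

set_option autoImplicit false

namespace Pool.Agent.Results.MP_b23a2c_al.Finite

open CategoryTheory Function Pool.Agent.H89.Tame

universe u v

structure FI where
  n : ℕ

instance : Category FI where
  Hom a b := Fin a.n ↪ Fin b.n
  id a := Embedding.refl _
  comp f g := f.trans g

variable {k : Type u} [Field k]

def IsSub (V : FI ⥤ ModuleCat.{v} k) (S : ∀ a, Submodule k (V.obj a)) : Prop :=
  ∀ (a b : FI) (f : a ⟶ b), ∀ x ∈ S a, (V.map f).hom x ∈ S b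

def Indec (V : FI ⥤ ModuleCat.{v} k) : Prop :=
  (∃ a, Nontrivial (V.obj a)) ∧ ∀ A B : ∀ a, Submodule k (V.obj a), IsSub V A → IsSub V B →
    (∀ a, IsCompl (A a) (B a)) → A = ⊥ ∨ B = ⊥

def TorsionFree (V : FI ⥤ ModuleCat.{v} k) : Prop :=
  ∀ (a b : FI) (f : a ⟶ b), Function.Injective (V.map f).hom

variable {V : FI ⥤ ModuleCat.{v} k}

lemma mx (A B : ∀ a, Submodule k (V.obj a)) (hB : IsSub V B) (h : A ⊓ B = ⊥) :
    ∃ C, B ≤ C ∧ IsSub V C ∧ A ⊓ C = ⊥ ∧ ∀ D, IsSub V D → C ≤ D → A ⊓ D = ⊥ → D ≤ C := by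
  obtain ⟨C, h1, h2⟩ := zorn_le_nonempty₀ {C | IsSub V C ∧ A ⊓ C = ⊥} (fun c hc ch y hy => by
    have : Nonempty c := ⟨⟨y, hy⟩⟩
    have m : ∀ a x, x ∈ sSup c a ↔ ∃ S : c, x ∈ S.1 a := fun a x => by
      rw [sSup_apply]
      exact Submodule.mem_iSup_of_directed _ fun S T =>
        (ch.directedOn.directed_val S T).imp fun U hU => ⟨hU.1 a, hU.2 a⟩
    refine ⟨sSup c, ⟨fun a b f x hx => ?_, funext fun a => eq_bot_iff.mpr fun x hx => ?_⟩,
      fun z hz => le_sSup hz⟩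
    · exact (m _ _).mpr (((m _ _).mp hx).imp fun S hS => (hc S.2).1 a b f x hS)
    · obtain ⟨S, hS⟩ := (m _ _).mp hx.2
      exact (congrFun (hc S.2).2 a).le ⟨hx.1, hS⟩) B ⟨hB, h⟩
  exact ⟨C, h1, h2.1.1, h2.1.2, fun D a b c => h2.2 ⟨a, c⟩ b⟩

lemma unif [Injective V] (hI : Indec V) (A B : ∀ a, Submodule k (V.obj a)) (hA : IsSub V A)
    (hB : IsSub V B) (h : A ⊓ B = ⊥) : A = ⊥ ∨ B = ⊥ := by
  obtain ⟨C, c1, c2, c3, c4⟩ := mx A B hB h
  obtain ⟨D, d1, d2, d3, d4⟩ := mx C A hA ((inf_comm _ _).trans c3)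
  let X : FI ⥤ ModuleCat.{v} k :=
    { obj a := .of k (C a)
      map f := ModuleCat.ofHom ((V.map f).hom.restrict (c2 _ _ f))
      map_id a := by ext; simp
      map_comp f g := by ext; simp }
  let Y : FI ⥤ ModuleCat.{v} k :=
    { obj a := .of k (V.obj a ⧸ D a)
      map f := ModuleCat.ofHom ((D _).mapQ (D _) (V.map f).hom (d2 _ _ f))
      map_id a := by ext; simp
      map_comp f g := by ext; simp }
  let i : X ⟶ V := { app a := ModuleCat.ofHom (C a).subtype }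
  let j : X ⟶ Y := { app a := ModuleCat.ofHom ((D a).mkQ ∘ₗ (C a).subtype) }
  have : ∀ a, Mono (j.app a) := fun a => (ModuleCat.mono_iff_injective _).mpr
    ((injective_iff_map_eq_zero _).mpr fun x hx => Subtype.ext ((congrFun d3 a).le
      ⟨x.2, (Submodule.Quotient.mk_eq_zero _).mp hx⟩))
  have := NatTrans.mono_of_mono_app j
  let e := fun a => ((Injective.factorThru i j).app a).hom ∘ₗ (D a).mkQ
  have e1 : ∀ a, ∀ x ∈ C a, e a x = x := fun a x hx =>
    congrArg (fun t : X ⟶ V => (t.app a).hom ⟨x, hx⟩) (Injective.comp_factorThru i j)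
  have e2 : ∀ a, ∀ x ∈ D a, e a x = 0 := fun a x hx =>
    (congrArg ((Injective.factorThru i j).app a).hom
      ((Submodule.Quotient.mk_eq_zero _).mpr hx)).trans (map_zero _)
  have e3 : ∀ a b (f : a ⟶ b) x, e b ((V.map f).hom x) = (V.map f).hom (e a x) := fun a b f x =>
    congrArg (fun t : Y.obj a ⟶ V.obj b => t.hom ((D a).mkQ x))
      ((Injective.factorThru i j).naturality f)
  have e4 := d4 (fun a => (A a).comap (e a)) (fun a b f x hx => by
    rw [Submodule.mem_comap, e3]; exact hA _ _ f _ hx) (fun a x hx => by simp [e2 a x hx])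
    (funext fun a => eq_bot_iff.mpr fun x hx => (congrFun c3 a).le ⟨e1 a x hx.1 ▸ hx.2, hx.1⟩)
  have e5 := c4 (fun a => LinearMap.range (e a)) (by
    rintro a b f _ ⟨x, rfl⟩; exact ⟨_, e3 a b f x⟩) (fun a x hx => ⟨x, e1 a x hx⟩)
    (funext fun a => eq_bot_iff.mpr (by rintro _ ⟨h, x, rfl⟩; exact e2 a x (e4 a h)))
  rcases hI.2 C (fun a => LinearMap.ker (e a)) c2 (fun a b f x hx => by
    rw [LinearMap.mem_ker, e3, hx, map_zero]) (fun a => ⟨Submodule.disjoint_def.mpr fun x a1 a2 =>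
      (e1 a x a1).symm.trans a2, codisjoint_iff.mpr (eq_top_iff.mpr fun x _ => Submodule.mem_sup.mpr
        ⟨_, e5 a ⟨x, rfl⟩, x - e a x, by simp [e1 a _ (e5 a ⟨x, rfl⟩)], by simp⟩)⟩) with h | h
  · exact Or.inr (eq_bot_iff.mpr (h ▸ c1))
  · exact Or.inl (eq_bot_iff.mpr fun a x hx => (congrFun h a).le (e2 a x (d1 a hx)))

theorem result (V : FI ⥤ ModuleCat.{v} k) [Injective V] (hI : Indec V) (tf : TorsionFree V)
    (a : FI) : FiniteDimensional k (V.obj a) := by
  let G : ℕ → Type v := fun n : ℕ => V.obj ⟨n⟩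
  let mp : ∀ {m n : ℕ}, (Fin m ↪ Fin n) → G m →ₗ[k] G n := fun {m n} e =>
    (V.map (X := ⟨m⟩) (Y := ⟨n⟩) e).hom
  have mc : ∀ {m n l : ℕ} (e : Fin m ↪ Fin n) (g : Fin n ↪ Fin l) x,
      mp g (mp e x) = mp (e.trans g) x := fun {m n l} e g x =>
    congrArg (fun t : V.obj ⟨m⟩ ⟶ V.obj ⟨l⟩ => t.hom x) (V.map_comp (X := ⟨m⟩) (Y := ⟨n⟩) (Z := ⟨l⟩) e g).symm
  have mi : ∀ n x, mp (Embedding.refl (Fin n)) x = x := fun n x =>
    congrArg (fun t : V.obj ⟨n⟩ ⟶ V.obj ⟨n⟩ => t.hom x) (V.map_id ⟨n⟩)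
  let t : ∀ m n, m ≤ n → G m →ₗ[k] G n := fun m n h => mp (Fin.castLEEmb h)
  have : DirectedSystem G fun i j h => t i j h := by
    constructor
    · intro n x; exact mi n x
    · intro _ _ _ h1 h2 x; exact mc _ _ x
  let of := Module.DirectLimit.of k ℕ G t
  have oe : ∀ {n N L : ℕ} (e : Fin n ↪ Fin N) (g : Fin n ↪ Fin L) x, (∀ i, (e i).val = g i) →
      of N (mp e x) = of L (mp g x) := fun {n N L} e g x h => by
    rw [← Module.DirectLimit.of_f (hij := le_max_left N L),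
      ← Module.DirectLimit.of_f (hij := le_max_right N L), mc, mc]
    congr 3
    exact Embedding.ext fun i => Fin.ext (h i)
  let r : ∀ (f : M) n, Fin n ↪ Fin (bnd f n).choose := fun f n =>
    ⟨fun i => ⟨f i, (bnd f n).choose_spec.2 i i.2⟩, fun i j e => Fin.ext (f.inj (congrArg Fin.val e))⟩
  let ρ : Representation k M (Module.DirectLimit G t) :=
    { toFun f := Module.DirectLimit.lift k ℕ G t (fun n => of _ ∘ₗ mp (r f n)) fun i j h x =>
        (congrArg (of _) (mc (Fin.castLEEmb h) (r f j) x)).trans (oe _ (r f i) x fun _ => rfl)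
      map_one' := Module.DirectLimit.hom_ext fun n => LinearMap.ext fun x => by
        simp only [LinearMap.comp_apply, Module.End.one_apply, Module.DirectLimit.lift_of]
        exact (oe (r 1 n) (Embedding.refl _) x fun _ => rfl).trans (congrArg _ (mi _ x))
      map_mul' f g := Module.DirectLimit.hom_ext fun n => LinearMap.ext fun x => by
        simp only [LinearMap.comp_apply, Module.End.mul_apply, Module.DirectLimit.lift_of, of, mc]
        exact oe _ _ x fun _ => rfl }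
  have act : ∀ (f : M) {n N : ℕ} (e : Fin n ↪ Fin N) x, (∀ i, (e i).val = f i) →
      o k f • ρ.asModuleEquiv.symm (of n x) = ρ.asModuleEquiv.symm (of N (mp e x)) :=
    fun f n N e x h => (ρ.asModuleEquiv_symm_map_rho f _).symm.trans (congrArg _
      ((show ρ f (of n x) = of _ (mp (r f n) x) by simp [ρ, of]).trans
        (oe (r f n) e x fun i => (h i).symm)))
  let c := fun n => ρ.asModuleEquiv.symm.toLinearMap ∘ₗ of n
  have sp : ∀ n x, Supp k n (c n x) := fun n x f g e =>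
    (act f (r f n) x fun _ => rfl).trans (act g (r f n) x fun i => e i i.2).symm
  have sj : ∀ y, ∃ n x, c n x = y := fun y => Module.DirectLimit.exists_of (ρ.asModuleEquiv y)
  have ci : ∀ n, Function.Injective (c n) := fun n => (injective_iff_map_eq_zero _).mpr fun x hx => by
    obtain ⟨j, h, e⟩ := Module.DirectLimit.of.zero_exact (show of n x = 0 from hx)
    exact tf ⟨n⟩ ⟨j⟩ _ (e.trans (map_zero _).symm)
  let S := fun (A : Submodule (R k) ρ.asModule) (b : FI) => (A.restrictScalars k).comap (c b.n)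
  have hS : ∀ A, IsSub V (S A) := fun A b d f x hx => by
    let e : ℕ → ℕ := fun i => if h : i < b.n then (f.toFun ⟨i, h⟩).val else 0
    obtain ⟨K, -, hK⟩ := bnd e b.n
    show ρ.asModuleEquiv.symm (of d.n (mp f x)) ∈ A
    exact (act (patch e b.n K (fun i hi j hj q => congrArg Fin.val (f.inj' (Fin.ext (by
      simpa only [e, hi, hj, dif_pos] using q) : f.toFun ⟨i, hi⟩ = f.toFun ⟨j, hj⟩))) hK) f x
      fun i => by simp [patch, e]) ▸ A.smul_mem _ hx
  have S0 : ∀ A, S A = ⊥ → A = ⊥ := fun A h => eq_bot_iff.mpr fun y hy => by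
    obtain ⟨n, x, rfl⟩ := sj y
    rw [show x = 0 from (congrFun h ⟨n⟩).le hy, map_zero]; exact Submodule.zero_mem _
  have := uniform ρ.asModule (fun y => by obtain ⟨n, x, rfl⟩ := sj y; exact ⟨n, sp n x⟩)
    (fun A B hA hB h => (unif hI _ _ (hS A) (hS B) (funext fun b => eq_bot_iff.mpr fun x hx =>
      ci _ ((h.le ⟨hx.1, hx.2⟩).trans (map_zero _).symm))).elim (mt (S0 A) hA) (mt (S0 B) hB)) a.n
  exact ⟨Submodule.fg_of_fg_map_injective _ (ci a.n) (this.of_le (by
    rintro _ ⟨x, -, rfl⟩; exact sp _ x))⟩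

end Pool.Agent.Results.MP_b23a2c_al.Finite
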